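import Pool.Agent.Run7.h480.BF.Iface

/-!
# Project BF, piece COA: the coarse structure is a fan with support `berg M`
-/

set_option autoImplicit false

open Set Module Filter Topology

namespace Run7.h321.BF

open Run7.h480.BF

section

variable {E : Type} [Fintype E]

lemma wt_add (a b : E → ℝ) (B : Set E) : wt (a + b) B = wt a B + wt b B := by
  simp [wt, Set.indicator_add', Finset.sum_add_distrib]

lemma wt_smul (c : ℝ) (a : E → ℝ) (B : Set E) : wt (c • a) B = c * wt a B := by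
  simp only [wt, Finset.mul_sum]
  refine Finset.sum_congr rfl fun i _ => ?_
  by_cases hi : i ∈ B <;> simp [hi]

/-- the weight as a linear map -/
noncomputable def wtL (B : Set E) : (E → ℝ) →ₗ[ℝ] ℝ where
  toFun := fun w => wt w B
  map_add' := fun a b => wt_add a b B
  map_smul' := fun c a => by
    rw [wt_smul]
    rfl

lemma wtL_apply (B : Set E) (w : E → ℝ) : wtL B w = wt w B := rfl

/-- `Ini M w` is not empty -/
lemma ini_nonempty (M : Matroid E) (w : E → ℝ) : (Ini M w).Nonempty := by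
  obtain ⟨B₀, hB₀⟩ := M.exists_isBase
  have hfin : {B : Set E | M.IsBase B}.Finite := Set.toFinite _
  obtain ⟨B, hB, hmin⟩ := Set.exists_min_image {B : Set E | M.IsBase B} (fun B => wt w B) hfin
    ⟨B₀, hB₀⟩
  exact ⟨B, hB, hmin⟩

/-- members of `cn M K` -/
lemma mem_cn {M : Matroid E} {K : Set (Set E)} (hK : ∀ B ∈ K, M.IsBase B) (x : E → ℝ) :
    x ∈ cn M K ↔ K ⊆ Ini M x :=
  ⟨fun h B hB => ⟨hK B hB, h B hB⟩, fun h B hB => (h hB).2⟩

lemma ini_base (M : Matroid E) (w : E → ℝ) : ∀ B ∈ Ini M w, M.IsBase B := fun _ h => h.1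

lemma ini_add {M : Matroid E} {x y : E → ℝ} (h : (Ini M x ∩ Ini M y).Nonempty) {s t : ℝ}
    (hs : 0 < s) (ht : 0 < t) : Ini M (s • x + t • y) = Ini M x ∩ Ini M y := by
  obtain ⟨B₀, hx₀, hy₀⟩ := h
  have hw : ∀ B : Set E, wt (s • x + t • y) B = s * wt x B + t * wt y B := by
    intro B
    rw [wt_add, wt_smul, wt_smul]
  ext B
  constructor
  · rintro ⟨hB, hmin⟩
    have h1 := hmin B₀ hx₀.1
    rw [hw, hw] at h1
    have h2 := hx₀.2 B hB
    have h3 := hy₀.2 B hB
    have h2' := mul_le_mul_of_nonneg_left h2 hs.le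
    have h3' := mul_le_mul_of_nonneg_left h3 ht.le
    have h4 : s * wt x B = s * wt x B₀ := by linarith
    have h5 : t * wt y B = t * wt y B₀ := by linarith
    have h6 : wt x B = wt x B₀ := mul_left_cancel₀ hs.ne' h4
    have h7 : wt y B = wt y B₀ := mul_left_cancel₀ ht.ne' h5
    exact ⟨⟨hB, fun B' hB' => h6 ▸ hx₀.2 B' hB'⟩, ⟨hB, fun B' hB' => h7 ▸ hy₀.2 B' hB'⟩⟩
  · rintro ⟨hBx, hBy⟩
    refine ⟨hBx.1, fun B' hB' => ?_⟩
    rw [hw, hw]
    have h2' := mul_le_mul_of_nonneg_left (hBx.2 B' hB') hs.le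
    have h3' := mul_le_mul_of_nonneg_left (hBy.2 B' hB') ht.le
    linarith

/-- `cn M K` as an explicit polyhedral cone -/
lemma cn_eq (M : Matroid E) (K : Set (Set E)) :
    ∃ (n : ℕ) (f : Fin n → ((E → ℝ) →ₗ[ℝ] ℝ)), cn M K = Cf f ∧
      (∀ x y : E → ℝ, Zf f x ⊆ Zf f y ↔
        ∀ B ∈ K, ∀ B', M.IsBase B' → wt x B = wt x B' → wt y B = wt y B') := by
  classical
  let I : Type := {p : Set E × Set E // p.1 ∈ K ∧ M.IsBase p.2}
  have : Finite I := inferInstance
  obtain ⟨n, ⟨e⟩⟩ := Finite.exists_equiv_fin I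
  refine ⟨n, fun i => wtL (e.symm i).1.2 - wtL (e.symm i).1.1, ?_, ?_⟩
  · ext x
    constructor
    · intro h i
      have := h (e.symm i).1.1 (e.symm i).2.1 (e.symm i).1.2 (e.symm i).2.2
      rw [LinearMap.sub_apply, wtL_apply, wtL_apply]
      linarith
    · intro h B hB B' hB'
      have := h (e ⟨(B, B'), hB, hB'⟩)
      simp only [Equiv.symm_apply_apply] at this
      rw [LinearMap.sub_apply, wtL_apply, wtL_apply] at this
      linarith
  · intro x y
    constructor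
    · intro h B hB B' hB' hx
      have h1 : e ⟨(B, B'), hB, hB'⟩ ∈ Zf (fun i => wtL (e.symm i).1.2 - wtL (e.symm i).1.1) x := by
        show (wtL (e.symm (e ⟨(B, B'), hB, hB'⟩)).1.2 - wtL (e.symm (e ⟨(B, B'), hB, hB'⟩)).1.1) x = 0
        rw [Equiv.symm_apply_apply, LinearMap.sub_apply, wtL_apply, wtL_apply]
        show wt x B' - wt x B = 0
        linarith
      have h2 := h h1
      have h3 : (wtL (e.symm (e ⟨(B, B'), hB, hB'⟩)).1.2 -
        wtL (e.symm (e ⟨(B, B'), hB, hB'⟩)).1.1) y = 0 := h2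
      rw [Equiv.symm_apply_apply, LinearMap.sub_apply, wtL_apply, wtL_apply] at h3
      have h4 : wt y B' - wt y B = 0 := h3
      linarith
    · intro h i hi
      have h1 : (wtL (e.symm i).1.2 - wtL (e.symm i).1.1) x = 0 := hi
      rw [LinearMap.sub_apply, wtL_apply, wtL_apply] at h1
      have h2 := h (e.symm i).1.1 (e.symm i).2.1 (e.symm i).1.2 (e.symm i).2.2 (by linarith)
      show (wtL (e.symm i).1.2 - wtL (e.symm i).1.1) y = 0
      rw [LinearMap.sub_apply, wtL_apply, wtL_apply]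
      linarith

lemma isClosed_cn (M : Matroid E) (K : Set (Set E)) : IsClosed (cn M K) := by
  obtain ⟨n, f, hf, -⟩ := cn_eq M K
  rw [hf]
  have : Cf f = ⋂ i, {x | 0 ≤ f i x} := by
    ext x
    simp [Cf]
  rw [this]
  exact isClosed_iInter (fun i => isClosed_le continuous_const
    (LinearMap.continuous_of_finiteDimensional (f i)))

lemma berg_of_sub (hB : S_BERG) {M : Matroid E} {r : ℕ} (hM : OK M r) {w x : E → ℝ}
    (hw : w ∈ berg M) (h : Ini M w ⊆ Ini M x) : x ∈ berg M := by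
  rw [hB E M r hM] at hw ⊢
  intro e
  obtain ⟨B, h1, h2⟩ := hw e
  exact ⟨B, h h1, h2⟩

lemma closure_eq (hB : S_BERG) {M : Matroid E} {r : ℕ} (hM : OK M r) {w : E → ℝ}
    (hw : w ∈ berg M) : closure {v | v ∈ berg M ∧ Ini M v = Ini M w} = cn M (Ini M w) := by
  apply Set.Subset.antisymm
  · refine closure_minimal ?_ (isClosed_cn M _)
    rintro v ⟨-, hv⟩
    rw [mem_cn (ini_base M w), hv]
  · intro x hx
    rw [mem_cn (ini_base M w)] at hx
    obtain ⟨B₀, hB₀⟩ := ini_nonempty M w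
    have h1 : ∀ t : ℝ, 0 < t → Ini M (x + t • w) = Ini M w := by
      intro t ht
      have h2 := ini_add (M := M) (x := x) (y := w) ⟨B₀, hx hB₀, hB₀⟩ one_pos ht
      rw [one_smul] at h2
      rw [h2]
      exact Set.inter_eq_self_of_subset_right hx
    have h3 : Tendsto (fun t : ℝ => x + t • w) (𝓝[>] 0) (𝓝 x) := by
      have : Tendsto (fun t : ℝ => x + t • w) (𝓝 0) (𝓝 (x + (0 : ℝ) • w)) := by
        refine Continuous.tendsto ?_ 0
        fun_prop
      rw [zero_smul, add_zero] at this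
      exact this.mono_left nhdsWithin_le_nhds
    refine mem_closure_of_tendsto h3 ?_
    filter_upwards [self_mem_nhdsWithin] with t ht
    have h4 := h1 t ht
    exact ⟨berg_of_sub hB hM hw h4.symm.subset, h4⟩

lemma face_eq {M : Matroid E} {w z : E → ℝ} {n : ℕ}
    {f : Fin n → ((E → ℝ) →ₗ[ℝ] ℝ)} (hf : cn M (Ini M w) = Cf f)
    (hZ : ∀ x y : E → ℝ, Zf f x ⊆ Zf f y ↔
        ∀ B ∈ Ini M w, ∀ B', M.IsBase B' → wt x B = wt x B' → wt y B = wt y B')
    (hz : Ini M w ⊆ Ini M z) : Ff f z = cn M (Ini M z) := by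
  obtain ⟨B₀, hB₀⟩ := ini_nonempty M w
  ext y
  constructor
  · rintro ⟨hy1, hy2⟩
    rw [← hf, mem_cn (ini_base M w)] at hy1
    rw [hZ] at hy2
    rw [mem_cn (ini_base M z)]
    intro B' hB'
    have h1 : wt z B₀ = wt z B' := le_antisymm ((hz hB₀).2 B' hB'.1) (hB'.2 B₀ (hB₀.1))
    have h2 := hy2 B₀ hB₀ B' hB'.1 h1
    exact ⟨hB'.1, fun B'' hB'' => h2 ▸ (hy1 hB₀).2 B'' hB''⟩
  · intro hy
    rw [mem_cn (ini_base M z)] at hy
    refine ⟨?_, ?_⟩
    · rw [← hf, mem_cn (ini_base M w)]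
      exact hz.trans hy
    · rw [hZ]
      intro B hB B' hB' heq
      have h1 : B' ∈ Ini M z := ⟨hB', fun B'' hB'' => heq ▸ (hz hB).2 B'' hB''⟩
      exact le_antisymm ((hy (hz hB)).2 B' hB') ((hy h1).2 B hB.1)

end

theorem t_COA : S_FAC → S_BERG → S_COA := by
  intro hFac hB E _ M r hM
  -- the cones of the coarse structure
  have hmem : ∀ σ, σ ∈ coarse M ↔ ∃ w ∈ berg M, σ = cn M (Ini M w) := by
    intro σ
    constructor
    · rintro ⟨w, hw, rfl⟩
      exact ⟨w, hw, closure_eq hB hM hw⟩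
    · rintro ⟨w, hw, rfl⟩
      exact ⟨w, hw, (closure_eq hB hM hw).symm⟩
  refine ⟨⟨?_, ?_, ?_, ?_⟩, ?_⟩
  · have hfin : (Set.range (fun K : Set (Set E) => cn M K)).Finite := Set.finite_range _
    refine hfin.subset ?_
    intro σ hσ
    obtain ⟨w, -, rfl⟩ := (hmem σ).mp hσ
    exact ⟨Ini M w, rfl⟩
  · intro σ hσ
    obtain ⟨w, -, rfl⟩ := (hmem σ).mp hσ
    obtain ⟨n, f, hf, -⟩ := cn_eq M (Ini M w)
    exact ⟨n, f, hf⟩
  · intro σ hσ τ hτ
    obtain ⟨w, hw, rfl⟩ := (hmem σ).mp hσ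
    obtain ⟨n, f, hf, hZ⟩ := cn_eq M (Ini M w)
    rw [hf] at hτ
    obtain ⟨z, hz, hτz⟩ := (hFac E n f).2 τ hτ
    have hzC : z ∈ Cf f := by
      rw [hτz] at hz
      exact hz.1
    rw [← hf, mem_cn (ini_base M w)] at hzC
    rw [hmem]
    exact ⟨z, berg_of_sub hB hM hw hzC, hτz.trans (face_eq hf hZ hzC)⟩
  · intro σ hσ τ hτ
    obtain ⟨w, hw, rfl⟩ := (hmem σ).mp hσ
    obtain ⟨w', hw', rfl⟩ := (hmem τ).mp hτ
    obtain ⟨n, f, hf, hZ⟩ := cn_eq M (Ini M w)
    -- a point with minimal `Ini`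
    set C : Set (E → ℝ) := cn M (Ini M w) ∩ cn M (Ini M w') with hC
    have h0 : (0 : E → ℝ) ∈ C := by
      have hwt : ∀ B : Set E, wt (0 : E → ℝ) B = 0 := by
        intro B
        simp [wt]
      constructor
      · intro B _ B' _
        rw [hwt, hwt]
      · intro B _ B' _
        rw [hwt, hwt]
    have hex : ∃ z ∈ C, ∀ x ∈ C, (Ini M z).ncard ≤ (Ini M x).ncard := by
      classical
      have hne : ∃ k, ∃ z ∈ C, (Ini M z).ncard = k := ⟨_, 0, h0, rfl⟩
      obtain ⟨z, hz, hk⟩ := Nat.find_spec hne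
      exact ⟨z, hz, fun x hx => hk ▸ Nat.find_min' hne ⟨x, hx, rfl⟩⟩
    obtain ⟨z, hz, hzmin⟩ := hex
    have hz1 := (mem_cn (ini_base M w) z).mp hz.1
    have hz2 := (mem_cn (ini_base M w') z).mp hz.2
    obtain ⟨B₀, hB₀⟩ := ini_nonempty M w
    have hCeq : C = cn M (Ini M z) := by
      apply Set.Subset.antisymm
      · intro x hx
        rw [mem_cn (ini_base M z)]
        have hx1 := (mem_cn (ini_base M w) x).mp hx.1
        have hx2 := (mem_cn (ini_base M w') x).mp hx.2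
        have h1 := ini_add (M := M) (x := z) (y := x) ⟨B₀, hz1 hB₀, hx1 hB₀⟩ one_pos one_pos
        rw [one_smul, one_smul] at h1
        have h2 : z + x ∈ C := by
          refine ⟨(mem_cn (ini_base M w) _).mpr ?_, (mem_cn (ini_base M w') _).mpr ?_⟩
          · rw [h1]
            exact Set.subset_inter hz1 hx1
          · rw [h1]
            exact Set.subset_inter hz2 hx2
        have h3 := hzmin _ h2
        rw [h1] at h3
        have h4 : Ini M z ∩ Ini M x = Ini M z :=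
          Set.eq_of_subset_of_ncard_le Set.inter_subset_left h3 (Set.toFinite _)
        exact Set.inter_eq_left.mp h4
      · intro x hx
        rw [mem_cn (ini_base M z)] at hx
        exact ⟨(mem_cn (ini_base M w) _).mpr (hz1.trans hx),
          (mem_cn (ini_base M w') _).mpr (hz2.trans hx)⟩
    have hzC : z ∈ Cf f := by
      rw [← hf]
      exact hz.1
    have h5 := ((hFac E n f).1 z hzC).1
    rw [face_eq hf hZ hz1, ← hf] at h5
    rw [hCeq]
    exact h5
  · ext x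
    constructor
    · rintro ⟨σ, hσ, hx⟩
      obtain ⟨w, hw, rfl⟩ := (hmem σ).mp hσ
      rw [mem_cn (ini_base M w)] at hx
      exact berg_of_sub hB hM hw hx
    · intro hx
      exact ⟨cn M (Ini M x), (hmem _).mpr ⟨x, hx, rfl⟩, (mem_cn (ini_base M x) x).mpr subset_rfl⟩

end Run7.h321.BF
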