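import Pool.Agent.Run7.h480.BF.Iface

/-!
# Project BF, piece LINK: the rays of a fan on `berg M` outside a cone `T` are linked
-/

set_option autoImplicit false

open Set Module Filter Topology

namespace Run7.h321.BF

open Run7.h480.BF

lemma isClosed_poly {E : Type} [Fintype E] {σ : Set (E → ℝ)} (h : IsPoly σ) : IsClosed σ := by
  obtain ⟨n, f, rfl⟩ := h
  have : {x : E → ℝ | ∀ i, 0 ≤ f i x} = ⋂ i, {x | 0 ≤ f i x} := by
    ext x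
    simp
  rw [this]
  exact isClosed_iInter (fun i => isClosed_le continuous_const
    (LinearMap.continuous_of_finiteDimensional (f i)))

theorem t_LINK : S_FAN → S_RAY → S_EDGE → S_REF → S_TOP → S_LINK := by
  intro hF hR hE hRef hTop E _ M r S hM hS hd T hT ρ hρ ρ' hρ' dρ dρ' nρ nρ'
  have hne : S.Nonempty := ⟨T, hT⟩
  obtain ⟨fa, -, -, fd, -⟩ := hF E S hS.fan hne
  obtain ⟨w, hwT, hw⟩ := hRef E M r S hM hS T hT
  have hsub : ∀ σ ∈ S, σ ⊆ berg M := by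
    intro σ hσ x hx
    rw [← hS.supp]
    exact ⟨σ, hσ, hx⟩
  have hwb : w ∈ berg M := hsub T hT hwT
  have hTcn : T ⊆ cn M (Ini M w) := by
    intro x hx B hB B' hB'
    exact (hw x hx hB).2 B' hB'
  have hpre : IsPreconnected (berg M \ T) := by
    refine hTop E M r hM w hwb T (hS.fan.poly T hT) hTcn ?_
    rw [(fd.2 T hT).2]
    exact hd
  set J : Set (Set (E → ℝ)) := {σ | σ ∈ S ∧ ∀ a ∈ S, a ⊆ σ → dim a = dim (lin S) + 1 → ¬ a ⊆ T →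
    Relation.ReflTransGen (Link S T) ρ a} with hJ
  have hρJ : ρ ∈ J := by
    refine ⟨hρ, fun a ha haρ da na => ?_⟩
    exact hE E S hS.fan T hT ρ hρ ρ hρ a ha subset_rfl haρ dρ da nρ na
  -- the key property
  have key : ∀ x, x ∈ berg M → x ∉ T → ∀ σ ∈ J, x ∈ σ → ∀ σ' ∈ S, x ∈ σ' → σ' ∈ J := by
    intro x hxb hxT σ hσ hxσ σ' hσ' hxσ'
    obtain ⟨κ, hκ⟩ := fa x (by rw [hS.supp]; exact hxb)
    have hκT : ¬ κ ⊆ T := fun h => hxT (h hκ.x_mem)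
    obtain ⟨a, ha, haκ, da, na⟩ := hR E S hS.fan T hT κ hκ.mem hκT
    have h1 := hσ.2 a ha (haκ.trans (hκ.min σ hσ.1 hxσ)) da na
    refine ⟨hσ', fun b hb hbσ db nb => h1.trans ?_⟩
    exact hE E S hS.fan T hT σ' hσ' a ha b hb (haκ.trans (hκ.min σ' hσ' hxσ')) hbσ da db na nb
  have hfin : S.Finite := hS.fan.fin
  have hcl : ∀ R : Set (Set (E → ℝ)), R ⊆ S → IsClosed (⋃₀ R) := by
    intro R hR
    rw [Set.sUnion_eq_biUnion]
    exact (hfin.subset hR).isClosed_biUnion (fun σ hσ => isClosed_poly (hS.fan.poly σ (hR hσ)))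
  have hJS : J ⊆ S := fun σ hσ => hσ.1
  have hρ'J : ρ' ∈ J := by
    by_contra hnot
    obtain ⟨x₀, hx₀, hx₀T⟩ := Set.not_subset.mp nρ
    obtain ⟨x₁, hx₁, hx₁T⟩ := Set.not_subset.mp nρ'
    rw [isPreconnected_closed_iff] at hpre
    obtain ⟨x, ⟨hxb, hxT⟩, ⟨σ, hσ, hxσ⟩, ⟨σ', hσ', hxσ'⟩⟩ :=
      hpre (⋃₀ J) (⋃₀ (S \ J)) (hcl J hJS) (hcl _ Set.sdiff_subset) (by
        intro x hx
        have hx1 : x ∈ ⋃₀ S := by rw [hS.supp]; exact hx.1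
        obtain ⟨σ, hσ, hxσ⟩ := hx1
        by_cases hc : σ ∈ J
        · exact Or.inl ⟨σ, hc, hxσ⟩
        · exact Or.inr ⟨σ, ⟨hσ, hc⟩, hxσ⟩)
        ⟨x₀, ⟨hsub ρ hρ hx₀, hx₀T⟩, ρ, hρJ, hx₀⟩
        ⟨x₁, ⟨hsub ρ' hρ' hx₁, hx₁T⟩, ρ', ⟨hρ', hnot⟩, hx₁⟩
    exact hσ'.2 (key x hxb hxT σ hσ hxσ σ' hσ'.1 hxσ')
  exact hρ'J.2 ρ' hρ' subset_rfl dρ' nρ'

end Run7.h321.BF
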